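import Pool.Agent.Helper23_LAP.Stmts

set_option autoImplicit false

namespace Pool.Agent.LAP.H5

open Pool.Agent.LAP

/-- The arithmetic of 3.3d, with `g = D / P'`, `p = s D`. -/
theorem nxa_core (l η r g η' r' N N' N₁ cr cr' cr₁ S S' S₁ s p : ℝ) (hl : (10 : ℝ) ^ 4 ≤ l)
    (hη0 : 0 ≤ η) (hη : η * l ^ 3 ≤ 30) (hr0 : 0 ≤ r) (hr : r ≤ l ^ 15) (hg0 : 0 ≤ g)
    (hg : g ≤ (1 + 2 / l ^ 4) * l ^ 15) (hs : 0 ≤ s) (hp : l ^ 19 * s ≤ p)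
    (he' : (η + 13 / l ^ 4) * (1 + 14 / l ^ 4) ≤ η')
    (hr' : 1 / 2 * (1 + 6 / l ^ 4) * (r + (1 + 1 / l ^ 4) * g) ≤ r')
    (hcr₁ : 0 ≤ cr₁) (hS₁ : 0 ≤ S₁)
    (h1 : N ≤ η * cr + r * S + 14 * l ^ 11 * p)
    (h2 : cr ≤ cr' + 9 / l ^ 4 * cr + 3 * l ^ 2 * p)
    (h3 : N' ≤ N + 9 / l ^ 4 * cr + 3 * l ^ 2 * p + (1 + 1 / l ^ 4) * g * S + l ^ 6 * p)
    (h4 : S ≤ S' + 3 / l ^ 4 * S + l ^ 6 * s)
    (h5 : N₁ - N' / 4 ≤ 1 / l ^ 4 * cr + (3 * l ^ 11 + 1) * p)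
    (h6 : cr' / 4 ≤ cr₁ + 1 / l ^ 4 * cr + 10 * l ^ 6 * p)
    (h7 : S' / 2 ≤ S₁ + 1 / l ^ 4 * S + l ^ 6 * s) :
    N₁ ≤ η' * cr₁ + r' * S₁ + 7 * l ^ 11 * p := by
  have hl0 : (0 : ℝ) < l := by linarith [show (0 : ℝ) < 10 ^ 4 by norm_num]
  have hl1 : (1 : ℝ) ≤ l := by linarith [show (1 : ℝ) ≤ 10 ^ 4 by norm_num]
  have hp0 : 0 ≤ p := le_trans (by positivity) hp
  obtain ⟨e, he⟩ : ∃ e : ℝ, e = 1 / l ^ 4 := ⟨_, rfl⟩
  have he0 : 0 < e := by rw [he]; positivity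
  have he1 : e ≤ 1 / 10 ^ 8 := by
    rw [he]
    apply one_div_le_one_div_of_le (by norm_num)
    calc (10 : ℝ) ^ 8 ≤ (10 ^ 4) ^ 4 := by norm_num
      _ ≤ l ^ 4 := by gcongr
  have c1 : (1 : ℝ) / l ^ 4 = e := he.symm
  have c2 : (2 : ℝ) / l ^ 4 = 2 * e := by rw [he]; ring
  have c3 : (3 : ℝ) / l ^ 4 = 3 * e := by rw [he]; ring
  have c6 : (6 : ℝ) / l ^ 4 = 6 * e := by rw [he]; ring
  have c9 : (9 : ℝ) / l ^ 4 = 9 * e := by rw [he]; ring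
  have c13 : (13 : ℝ) / l ^ 4 = 13 * e := by rw [he]; ring
  have c14 : (14 : ℝ) / l ^ 4 = 14 * e := by rw [he]; ring
  rw [c1] at h3 h5 h6 h7 hr'
  rw [c2] at hg
  rw [c3] at h4
  rw [c6] at hr'
  rw [c9] at h2 h3
  rw [c13, c14] at he'
  have k2 : (1 : ℝ) ≤ l ^ 2 := one_le_pow₀ hl1
  have k6 : (1 : ℝ) ≤ l ^ 6 := one_le_pow₀ hl1
  have k26 : l ^ 2 ≤ l ^ 6 := pow_le_pow_right₀ hl1 (by norm_num)
  have q2 : l ^ 2 * p ≤ l ^ 6 * p := mul_le_mul_of_nonneg_right k26 hp0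
  -- the crossing arcs
  have d1 : (1 - 13 * e) * cr ≤ 4 * cr₁ + 41 * (l ^ 6 * p) := by
    have h8 : 43 * l ^ 2 ≤ l ^ 6 := by
      have : l ^ 6 = l ^ 4 * l ^ 2 := by ring
      have h9 : (43 : ℝ) ≤ l ^ 4 := by
        calc (43 : ℝ) ≤ (10 ^ 4) ^ 4 := by norm_num
          _ ≤ l ^ 4 := by gcongr
      rw [this]
      exact mul_le_mul_of_nonneg_right h9 (by positivity)
    have h10 : 3 * (l ^ 2 * p) ≤ l ^ 6 * p := by
      have h11 := mul_le_mul_of_nonneg_right h8 hp0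
      have h12 := mul_nonneg (by positivity : (0 : ℝ) ≤ l ^ 2) hp0
      linarith
    linarith
  have d2 : cr ≤ (1 + 14 * e) * (4 * cr₁ + 41 * (l ^ 6 * p)) := by
    have hY : 0 ≤ 4 * cr₁ + 41 * (l ^ 6 * p) := by positivity
    by_contra hc
    push Not at hc
    have h8 : (1 - 13 * e) * ((1 + 14 * e) * (4 * cr₁ + 41 * (l ^ 6 * p))) < (1 - 13 * e) * cr :=
      mul_lt_mul_of_pos_left hc (by linarith)
    have h9 : 0 ≤ ((1 - 13 * e) * (1 + 14 * e) - 1) * (4 * cr₁ + 41 * (l ^ 6 * p)) := by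
      apply mul_nonneg _ hY
      nlinarith only [he0, he1]
    linarith
  have d3 : cr ≤ 4 * ((1 + 14 * e) * cr₁) + 42 * (l ^ 6 * p) := by
    have h8 : 0 ≤ l ^ 6 * p := by positivity
    have h9 : 14 * e * (41 * (l ^ 6 * p)) ≤ l ^ 6 * p := by
      have h10 : 574 * e ≤ 1 := by linarith
      have h11 := mul_le_mul_of_nonneg_right h10 h8
      linarith
    linarith
  -- the sizes
  have d4 : (1 - 5 * e) * S ≤ 2 * S₁ + 3 * (l ^ 6 * s) := by linarith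
  have d5 : S ≤ (1 + 6 * e) * (2 * S₁ + 3 * (l ^ 6 * s)) := by
    have hY : 0 ≤ 2 * S₁ + 3 * (l ^ 6 * s) := by positivity
    by_contra hc
    push Not at hc
    have h8 : (1 - 5 * e) * ((1 + 6 * e) * (2 * S₁ + 3 * (l ^ 6 * s))) < (1 - 5 * e) * S :=
      mul_lt_mul_of_pos_left hc (by linarith)
    have h9 : 0 ≤ ((1 - 5 * e) * (1 + 6 * e) - 1) * (2 * S₁ + 3 * (l ^ 6 * s)) := by
      apply mul_nonneg _ hY
      nlinarith only [he0, he1]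
    linarith
  have d6 : S ≤ 2 * ((1 + 6 * e) * S₁) + 4 * (l ^ 6 * s) := by
    have h8 : 0 ≤ l ^ 6 * s := by positivity
    have h9 : 6 * e * (3 * (l ^ 6 * s)) ≤ l ^ 6 * s := by
      have h10 : 18 * e ≤ 1 := by linarith
      have h11 := mul_le_mul_of_nonneg_right h10 h8
      linarith
    linarith
  -- the coefficients
  have f1 : η + 13 * e ≤ 31 / l ^ 3 := by
    have h8 : η ≤ 30 / l ^ 3 := by rw [le_div_iff₀ (by positivity)]; exact hη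
    have h9 : 13 * e ≤ 1 / l ^ 3 := by
      rw [he]
      rw [mul_one_div, div_le_div_iff₀ (by positivity) (by positivity)]
      have h10 : (13 : ℝ) ≤ l := by linarith [show (13 : ℝ) ≤ 10 ^ 4 by norm_num]
      calc 13 * l ^ 3 ≤ l * l ^ 3 := mul_le_mul_of_nonneg_right h10 (by positivity)
        _ = 1 * l ^ 4 := by ring
    calc η + 13 * e ≤ 30 / l ^ 3 + 1 / l ^ 3 := add_le_add h8 h9
      _ = 31 / l ^ 3 := by ring
  have f0 : 0 ≤ η + 13 * e := by positivity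
  have f2 : (η + 13 * e) * (l ^ 6 * p) ≤ 31 * (l ^ 3 * p) := by
    calc (η + 13 * e) * (l ^ 6 * p) ≤ 31 / l ^ 3 * (l ^ 6 * p) :=
          mul_le_mul_of_nonneg_right f1 (by positivity)
      _ = 31 * (l ^ 3 * p) := by field_simp
  obtain ⟨w, hw⟩ : ∃ w : ℝ, w = r + (1 + e) * g := ⟨_, rfl⟩
  have w0 : 0 ≤ w := by rw [hw]; positivity
  have w1 : w ≤ 3 * l ^ 15 := by
    have h8 : 0 < l ^ 15 := by positivity
    have h9 : (1 + e) * g ≤ (1 + e) * ((1 + 2 * e) * l ^ 15) :=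
      mul_le_mul_of_nonneg_left hg (by linarith)
    have h10 : (1 + e) * (1 + 2 * e) ≤ 2 := by nlinarith only [he0, he1]
    have h11 : (1 + e) * ((1 + 2 * e) * l ^ 15) ≤ 2 * l ^ 15 := by
      rw [← mul_assoc]
      exact mul_le_mul_of_nonneg_right h10 h8.le
    rw [hw]
    linarith
  have w2 : w * (l ^ 6 * s) ≤ 3 * (l ^ 2 * p) := by
    calc w * (l ^ 6 * s) ≤ 3 * l ^ 15 * (l ^ 6 * s) := mul_le_mul_of_nonneg_right w1 (by positivity)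
      _ = 3 * (l ^ 2 * (l ^ 19 * s)) := by ring
      _ ≤ 3 * (l ^ 2 * p) := by gcongr
  -- the sum
  have g1 : N₁ ≤ 1 / 4 * ((η + 13 * e) * cr) + 1 / 4 * (w * S) +
      (13 / 2 * (l ^ 11 * p) + 3 / 4 * (l ^ 2 * p) + 1 / 4 * (l ^ 6 * p) + p) := by
    rw [hw]
    linarith
  have g2 : (η + 13 * e) * cr ≤ 4 * ((η + 13 * e) * (1 + 14 * e) * cr₁) + 42 * (31 * (l ^ 3 * p)) := by
    calc (η + 13 * e) * cr ≤ (η + 13 * e) * (4 * ((1 + 14 * e) * cr₁) + 42 * (l ^ 6 * p)) :=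
          mul_le_mul_of_nonneg_left d3 f0
      _ = 4 * ((η + 13 * e) * (1 + 14 * e) * cr₁) + 42 * ((η + 13 * e) * (l ^ 6 * p)) := by ring
      _ ≤ _ := by linarith
  have g3 : w * S ≤ 2 * ((1 + 6 * e) * w * S₁) + 4 * (3 * (l ^ 2 * p)) := by
    calc w * S ≤ w * (2 * ((1 + 6 * e) * S₁) + 4 * (l ^ 6 * s)) := mul_le_mul_of_nonneg_left d6 w0
      _ = 2 * ((1 + 6 * e) * w * S₁) + 4 * (w * (l ^ 6 * s)) := by ring
      _ ≤ _ := by linarith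
  have g4 : (η + 13 * e) * (1 + 14 * e) * cr₁ ≤ η' * cr₁ := mul_le_mul_of_nonneg_right he' hcr₁
  have g5 : 1 / 2 * ((1 + 6 * e) * w * S₁) ≤ r' * S₁ := by
    have h8 : 1 / 2 * (1 + 6 * e) * w ≤ r' := by rw [hw]; exact hr'
    calc 1 / 2 * ((1 + 6 * e) * w * S₁) = 1 / 2 * (1 + 6 * e) * w * S₁ := by ring
      _ ≤ r' * S₁ := mul_le_mul_of_nonneg_right h8 hS₁
  have m3 : l ^ 3 * p ≤ 1 / 10 ^ 4 * (l ^ 11 * p) := by
    have h8 : (10 : ℝ) ^ 4 * l ^ 3 ≤ l ^ 11 := by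
      calc (10 : ℝ) ^ 4 * l ^ 3 ≤ l * l ^ 3 := mul_le_mul_of_nonneg_right hl (by positivity)
        _ = l ^ 4 := by ring
        _ ≤ l ^ 11 := pow_le_pow_right₀ hl1 (by norm_num)
    have := mul_le_mul_of_nonneg_right h8 hp0
    linarith
  have m2 : l ^ 2 * p ≤ 1 / 10 ^ 4 * (l ^ 11 * p) := by
    refine le_trans ?_ m3
    exact mul_le_mul_of_nonneg_right (pow_le_pow_right₀ hl1 (by norm_num)) hp0
  have m6 : l ^ 6 * p ≤ 1 / 10 ^ 4 * (l ^ 11 * p) := by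
    have h8 : (10 : ℝ) ^ 4 * l ^ 6 ≤ l ^ 11 := by
      calc (10 : ℝ) ^ 4 * l ^ 6 ≤ l * l ^ 6 := mul_le_mul_of_nonneg_right hl (by positivity)
        _ = l ^ 7 := by ring
        _ ≤ l ^ 11 := pow_le_pow_right₀ hl1 (by norm_num)
    have := mul_le_mul_of_nonneg_right h8 hp0
    linarith
  have m0 : p ≤ 1 / 10 ^ 4 * (l ^ 11 * p) := by
    refine le_trans ?_ m6
    calc p = 1 * p := by ring
      _ ≤ l ^ 6 * p := mul_le_mul_of_nonneg_right k6 hp0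
  have mp : 0 ≤ l ^ 11 * p := by positivity
  linarith

theorem nxa : NXAStmt := by
  intro k L q D δ η r T Rr ζ P P' δ' η' r' T' R' hP hN N N' N₁ cr cr' cr₁ S S' S₁ s hcr hcr₁ hS
    hS₁ hs h1 h2 h3 h4 h5 h6 h7
  have hl : (10 : ℝ) ^ 4 ≤ (L : ℝ) := by exact_mod_cast hP.L4
  have hl0 : (0 : ℝ) < (L : ℝ) := by linarith [show (0 : ℝ) < 10 ^ 4 by norm_num]
  have hP'0 : (0 : ℝ) < P' := by
    have := hP.s3
    have h8 : (0 : ℝ) < (L : ℝ) ^ 4 := by positivity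
    linarith
  have hg : D / P' ≤ (1 + 2 / (L : ℝ) ^ 4) * (L : ℝ) ^ 15 := by
    rw [div_le_iff₀ hP'0]
    calc D ≤ (1 + 2 / (L : ℝ) ^ 4) * (P' * ζ) := hP.s2
      _ ≤ (1 + 2 / (L : ℝ) ^ 4) * (P' * (L : ℝ) ^ 15) := by
          apply mul_le_mul_of_nonneg_left _ (by positivity)
          exact mul_le_mul_of_nonneg_left hP.z2 hP'0.le
      _ = _ := by ring
  have hD0 : 0 ≤ D := le_trans (by positivity) hP.D1
  have hp : (L : ℝ) ^ 19 * s ≤ s * D := by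
    rw [mul_comm s D]
    exact mul_le_mul_of_nonneg_right hP.D1 hs
  have := nxa_core (L : ℝ) η r (D / P') η' r' N N' N₁ cr cr' cr₁ S S' S₁ s (s * D) hl hP.e0 hP.e1
    hP.r0 hP.r1 (by positivity) hg hs hp hN.e hN.r hcr₁ hS₁ (by linarith) (by linarith)
    (by linarith) h4 (by linarith) (by linarith) h7
  linarith

end Pool.Agent.LAP.H5
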