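import Pool.Agent.Helper23_LAP.Stmts

set_option autoImplicit false

namespace Pool.Agent.LAP.H5

open scoped Classical
open Pool.Agent.LAP

/-- The number of arcs of `aou` is at most the number of allowed arcs plus `|A|`. -/
theorem aou_le {α β : Type} (R F : Finset (α × β)) (X : Finset α) (Y : Finset β) (hF : PI F)
    (A : Finset α) (B : Finset β) :
    (aou R X Y A B).card ≤ (hO R F A Y B).card + A.card := by
  have h1 : aou R X Y A B ⊆ hO R F A Y B ∪ (aou R X Y A B).filter fun a => a ∈ F := by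
    intro a ha
    rw [Finset.mem_union]
    by_cases h : a ∈ F
    · exact Or.inr (Finset.mem_filter.2 ⟨ha, h⟩)
    · left
      unfold aou at ha
      unfold hO
      rw [Finset.mem_filter] at ha ⊢
      exact ⟨ha.1, h, ha.2.1.2, ha.2.2.1, ha.2.2.2⟩
  have h2 : ((aou R X Y A B).filter fun a => a ∈ F).card ≤ A.card := by
    apply Finset.card_le_card_of_injOn Prod.fst
    · intro a ha
      have ha' := Finset.mem_filter.1 (Finset.mem_coe.1 ha)
      have h3 := ha'.1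
      unfold aou at h3
      rw [Finset.mem_filter] at h3
      exact h3.2.1.2
    · intro a ha b hb hab
      have ha' := (Finset.mem_filter.1 (Finset.mem_coe.1 ha)).2
      have hb' := (Finset.mem_filter.1 (Finset.mem_coe.1 hb)).2
      obtain ⟨x, y⟩ := a
      obtain ⟨x', y'⟩ := b
      simp only at hab
      subst hab
      rw [hF.1 x y y' ha' hb']
  calc (aou R X Y A B).card ≤
      (hO R F A Y B ∪ (aou R X Y A B).filter fun a => a ∈ F).card := Finset.card_le_card h1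
    _ ≤ (hO R F A Y B).card + ((aou R X Y A B).filter fun a => a ∈ F).card :=
        Finset.card_union_le _ _
    _ ≤ (hO R F A Y B).card + A.card := by omega

/-- The arcs from the sinks to `B` are ingoing arcs. -/
theorem ain_ge {α β : Type} [Fintype α] [Fintype β] (R : Finset (α × β)) (X X' A : Finset α)
    (Y B : Finset β) (hX' : X' ⊆ X) (hA : Disjoint A X') (hB : B ⊆ Y) :
    ∑ y ∈ B, (inn R y ∩ X').card ≤ (ain R X Y A B).card := by
  have h1 : ∑ y ∈ B, (inn R y ∩ X').card = (B.sigma fun y => inn R y ∩ X').card := by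
    rw [Finset.card_sigma]
  rw [h1]
  apply Finset.card_le_card_of_injOn (fun s => (s.2, s.1))
  · intro s hs
    have hs' := Finset.mem_sigma.1 (Finset.mem_coe.1 hs)
    obtain ⟨hy, hx⟩ := hs'
    rw [Finset.mem_inter] at hx
    obtain ⟨hx1, hx2⟩ := hx
    unfold inn at hx1
    rw [Finset.mem_filter] at hx1
    rw [Finset.mem_coe]
    unfold ain
    rw [Finset.mem_filter]
    refine ⟨hx1.2, ⟨hX' hx2, ?_⟩, hB hy, hy⟩
    intro h
    exact Finset.disjoint_left.1 hA h hx2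
  · intro s _ t _ hst
    obtain ⟨y, x⟩ := s
    obtain ⟨y', x'⟩ := t
    simp only [Prod.mk.injEq] at hst
    obtain ⟨h1, h2⟩ := hst
    subst h1
    subst h2
    rfl

/-- The arithmetic of 2.6. -/
theorem arith (l D r ζ N u O a b : ℝ) (hl : (10 : ℝ) ^ 4 ≤ l) (hD : l ^ 19 ≤ D) (hr : 0 ≤ r)
    (hz : (1 + 5 / l ^ 2) * (r + 252 * l ^ 13 + 5) ≤ ζ) (hb : 0 ≤ b) (hab : b ≤ a)
    (hN : (1 - 9 / l ^ 3) * ζ * b ≤ N) (hN0 : 0 ≤ N)
    (h : N - u - D * (b - a) ≤ 1 / l ^ 2 * (N + u) + r * b + (252 * l ^ 13 + 1) * a)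
    (hu : u ≤ O + a) : 1 / l ^ 2 * N + 2 * a ≤ O := by
  have hl0 : (0 : ℝ) < l := by linarith [show (0 : ℝ) < 10 ^ 4 by norm_num]
  set e : ℝ := 1 / l ^ 2 with he
  have he0 : 0 < e := by positivity
  have he1 : e ≤ 1 / 10 ^ 8 := by
    rw [he]
    apply one_div_le_one_div_of_le (by norm_num)
    calc (10 : ℝ) ^ 8 = (10 ^ 4) ^ 2 := by norm_num
      _ ≤ l ^ 2 := by gcongr
  have h5 : 5 / l ^ 2 = 5 * e := by rw [he]; ring
  have h9 : 9 / l ^ 3 ≤ e / 1000 := by
    have h91 : 9 / l ^ 3 = 9 / l * e := by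
      rw [he]
      field_simp
    have h92 : 9 / l ≤ 1 / 1000 := by
      rw [div_le_div_iff₀ hl0 (by norm_num)]
      linarith [show (10 : ℝ) ^ 4 = 10000 by norm_num]
    rw [h91]
    nlinarith
  have h90 : 0 ≤ 9 / l ^ 3 := by positivity
  set x : ℝ := r + 252 * l ^ 13 + 5 with hx
  have hx0 : 0 ≤ x := by positivity
  have hprod : 1 ≤ (1 - 2 * e - e ^ 2) * ((1 - 9 / l ^ 3) * (1 + 5 * e)) := by
    have h1 : 1 + 4 * e ≤ (1 - 9 / l ^ 3) * (1 + 5 * e) := by nlinarith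
    have h2 : 0 ≤ 1 - 2 * e - e ^ 2 := by nlinarith
    calc (1 : ℝ) ≤ (1 - 2 * e - e ^ 2) * (1 + 4 * e) := by nlinarith
      _ ≤ _ := mul_le_mul_of_nonneg_left h1 h2
  have h2 : 0 ≤ 1 - 2 * e - e ^ 2 := by nlinarith
  have hNx : x * b ≤ (1 - 2 * e - e ^ 2) * N := by
    have h1 : (1 - 9 / l ^ 3) * (1 + 5 * e) * (x * b) ≤ N := by
      calc (1 - 9 / l ^ 3) * (1 + 5 * e) * (x * b) = (1 - 9 / l ^ 3) * ((1 + 5 * e) * x) * b := by
            ring
        _ ≤ (1 - 9 / l ^ 3) * ζ * b := by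
            apply mul_le_mul_of_nonneg_right _ hb
            apply mul_le_mul_of_nonneg_left
            · rw [← h5]; exact hz
            · nlinarith
        _ ≤ N := hN
    calc x * b = 1 * (x * b) := by ring
      _ ≤ (1 - 2 * e - e ^ 2) * ((1 - 9 / l ^ 3) * (1 + 5 * e)) * (x * b) :=
          mul_le_mul_of_nonneg_right hprod (mul_nonneg hx0 hb)
      _ = (1 - 2 * e - e ^ 2) * ((1 - 9 / l ^ 3) * (1 + 5 * e) * (x * b)) := by ring
      _ ≤ (1 - 2 * e - e ^ 2) * N := mul_le_mul_of_nonneg_left h1 h2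
  have hDk : 252 * l ^ 13 + 5 ≤ D := by
    have h1 : (1 : ℝ) ≤ l ^ 13 := one_le_pow₀ (by linarith [show (1 : ℝ) ≤ 10 ^ 4 by norm_num])
    have h3 : (257 : ℝ) ≤ l ^ 6 := by
      calc (257 : ℝ) ≤ (10 ^ 4) ^ 6 := by norm_num
        _ ≤ l ^ 6 := by gcongr
    have h4 : l ^ 19 = l ^ 6 * l ^ 13 := by ring
    nlinarith
  by_contra hcon
  push Not at hcon
  -- `O < e N + 2 a`
  have h3 : (1 + e) * u ≥ (1 - e) * N + D * (a - b) - r * b - (252 * l ^ 13 + 1) * a := by
    nlinarith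
  have h4 : (1 + e) * u ≤ (1 + e) * (O + a) := mul_le_mul_of_nonneg_left hu (by linarith)
  have h5' : (1 + e) * O < (1 + e) * (e * N + 2 * a) := mul_lt_mul_of_pos_left hcon (by linarith)
  have h6 : 0 ≤ (D - (252 * l ^ 13 + 1) - 3 * (1 + e)) * (a - b) := by
    apply mul_nonneg
    · linarith
    · linarith
  have h7 : 0 ≤ (1 - 3 * e) * b := mul_nonneg (by linarith) hb
  have h8 : (1 - 2 * e - e ^ 2) * N = (1 - e) * N - (1 + e) * (e * N) := by ring
  have h10 : x * b = (r + (252 * l ^ 13 + 1) + 3 * (1 + e)) * b + (1 - 3 * e) * b := by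
    rw [hx]; ring
  nlinarith

theorem srh (hHAP : HAPStmt) : SRHStmt := by
  intro k L q D δ η r T Rr ζ P P' hP α β _ _ E R F X X' Y hCl hH hX' hsink hF A hA hAX' B hB hlt
  have hl : (10 : ℝ) ^ 4 ≤ (L : ℝ) := by exact_mod_cast hP.L4
  have hbA : (B.card : ℝ) ≤ A.card := by exact_mod_cast hlt.le
  have h1 := (hHAP k L q D δ η r T Rr ζ P P' hP α β E R X Y hCl hH A hA B hB (A.card : ℝ)
    (by linarith)).1
  have h2 : ((crs R X Y A B).card : ℝ) ≤ (ain R X Y A B).card + (aou R X Y A B).card := by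
    have := Finset.card_union_le (ain R X Y A B) (aou R X Y A B)
    unfold crs
    exact_mod_cast this
  have h3 : ((aou R X Y A B).card : ℝ) ≤ (hO R F A Y B).card + A.card := by
    exact_mod_cast aou_le R F X Y hF A B
  have h4 : (1 - 9 / (L : ℝ) ^ 3) * ζ * B.card ≤ ((ain R X Y A B).card : ℝ) := by
    have h5 : ((∑ y ∈ B, (inn R y ∩ X').card : ℕ) : ℝ) ≤ ((ain R X Y A B).card : ℝ) := by
      exact_mod_cast ain_ge R X X' A Y B hX' hAX' hB
    refine le_trans ?_ h5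
    rw [Nat.cast_sum]
    calc (1 - 9 / (L : ℝ) ^ 3) * ζ * B.card = ∑ y ∈ B, (1 - 9 / (L : ℝ) ^ 3) * ζ := by
          rw [Finset.sum_const, nsmul_eq_mul]; ring
      _ ≤ _ := Finset.sum_le_sum fun y _ => hsink y
  have h6 : Y ∩ B = B := Finset.inter_eq_right.2 hB
  have h7 : X ∩ A = A := Finset.inter_eq_right.2 hA
  unfold dsc at h1
  rw [h6, h7] at h1
  have h8 : 1 / (L : ℝ) ^ 2 * ((crs R X Y A B).card : ℝ) ≤
      1 / (L : ℝ) ^ 2 * (((ain R X Y A B).card : ℝ) + (aou R X Y A B).card) :=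
    mul_le_mul_of_nonneg_left h2 (by positivity)
  exact arith (L : ℝ) D r ζ _ ((aou R X Y A B).card : ℝ) _ (A.card : ℝ) (B.card : ℝ) hl hP.D1
    hP.r0 hP.z1 (by positivity) hbA h4 (by positivity) (by linarith) h3

end Pool.Agent.LAP.H5
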